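import Mathlib
import Pool.Agent.MP_9e8696_an.H68.Frame
import Pool.Agent.MP_9e8696_an.H68.Bridge
import Pool.Agent.MP_9e8696_an.H82.Core
import Pool.Agent.MP_9e8696_an.H91.Glue

/-!
The polynomial Aaronson-Ambainis inequality for the block-multilinear part of a bounded function.

The cube `{-1,1}^n` is modelled by `Fin n → Bool`, a bit `b` standing for the sign `sgn b`.
-/

namespace Pool.Agent.Results.MP_9e8696_an.BlockMulti

open Finset

/-- The sign of a bit: `false` stands for `1` and `true` for `-1`. -/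
def sgn (b : Bool) : ℝ := if b then -1 else 1

/-- Expectation under the uniform measure on the cube. -/
noncomputable def avg {n : ℕ} (g : (Fin n → Bool) → ℝ) : ℝ := (∑ x, g x) / 2 ^ n

/-- The Fourier coefficient `E[f(x) x^S]`. -/
noncomputable def coeff {n : ℕ} (f : (Fin n → Bool) → ℝ) (S : Finset (Fin n)) : ℝ :=
  avg fun x => f x * ∏ i ∈ S, sgn (x i)

/-- The discrete derivative `D_j f(x) = (f(x^(j→1)) - f(x^(j→-1))) / 2`. -/
noncomputable def discDeriv {n : ℕ} (j : Fin n) (f : (Fin n → Bool) → ℝ) (x : Fin n → Bool) : ℝ :=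
  (f (Function.update x j false) - f (Function.update x j true)) / 2

/-- The influence `E[(D_j f)^2]`. -/
noncomputable def influence {n : ℕ} (f : (Fin n → Bool) → ℝ) (j : Fin n) : ℝ :=
  avg fun x => discDeriv j f x ^ 2

/-- The Fourier weight of `f` on the sets with exactly one coordinate in every block. -/
noncomputable def blockWeight {n d : ℕ} (blk : Fin n → Fin d) (f : (Fin n → Bool) → ℝ) : ℝ :=
  ∑ S ∈ univ.filter fun S : Finset (Fin n) => ∀ k, (S.filter fun i => blk i = k).card = 1,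
    coeff f S ^ 2

lemma avg_eq {n : ℕ} (g : (Fin n → Bool) → ℝ) : avg g = Finset.expect univ g := by
  rw [Fintype.expect_eq_sum_div_card]
  simp [avg]

theorem result : ∃ C₁ C₂ : ℝ, 0 < C₁ ∧ 0 < C₂ ∧ ∀ n d : ℕ, 1 ≤ n → 1 ≤ d →
    ∀ (f : (Fin n → Bool) → ℝ) (blk : Fin n → Fin d), (∀ x, |f x| ≤ 1) →
      (∀ S : Finset (Fin n), d < S.card → coeff f S = 0) →
      ∃ j : Fin n, C₁ * (blockWeight blk f / d) ^ C₂ ≤ influence f j := by
  obtain ⟨C₀, e₀, d₀, hC₀, he₀, hd₀, hloc⟩ := MP_9e8696_an.H91.loc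
  obtain ⟨e, C, he, he1, hcore⟩ := MP_9e8696_an.H82.core_of_loc hC₀ he₀ hd₀ hloc
  obtain ⟨C₁, C₂, h1, h2, h⟩ := MP_9e8696_an.H68.bridge (MP_9e8696_an.H68.frame he he1 hcore)
  refine ⟨C₁, C₂, h1, h2, fun n d hn hd f blk hf hdeg => ?_⟩
  have hc : coeff f = MP_9e8696_an.H67.fc f := by
    funext S
    rw [coeff, avg_eq]
    rfl
  obtain ⟨j, hj⟩ := h n d hn hd f blk hf (fun S hS => by rw [← hc]; exact hdeg S hS)
  refine ⟨j, ?_⟩
  rw [MP_9e8696_an.H67.inf_fc] at hj
  rw [influence, avg_eq, blockWeight, sum_filter, hc]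
  exact hj

end Pool.Agent.Results.MP_9e8696_an.BlockMulti
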