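import Mathlib
import Pool.Agent.MP_9e8696_an.H7.Flow

/-!
The Aaronson-Ambainis inequality for homogeneous functions whose square is completed, up to a
small defect in the mean, to a constant by squares of homogeneous functions.

The cube `{-1,1}^n` is modelled by `Fin n → Bool`, a bit `b` standing for the sign `sgn b`.
-/

namespace Pool.Agent.Results.MP_9e8696_an.Completion

open Finset

/-- The sign of a bit: `false` stands for `1` and `true` for `-1`. -/
def sgn (b : Bool) : ℝ := if b then -1 else 1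

/-- Expectation under the uniform measure on the cube. -/
noncomputable def avg {n : ℕ} (g : (Fin n → Bool) → ℝ) : ℝ := (∑ x, g x) / 2 ^ n

/-- The Fourier coefficient `E[f(x) x^S]`. -/
noncomputable def coeff {n : ℕ} (f : (Fin n → Bool) → ℝ) (S : Finset (Fin n)) : ℝ :=
  avg fun x => f x * ∏ i ∈ S, sgn (x i)

/-- The variance `E[f^2] - (E f)^2`. -/
noncomputable def variance {n : ℕ} (f : (Fin n → Bool) → ℝ) : ℝ :=
  avg (fun x => f x ^ 2) - avg f ^ 2

/-- The discrete derivative `D_j f(x) = (f(x^(j→1)) - f(x^(j→-1))) / 2`. -/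
noncomputable def discDeriv {n : ℕ} (j : Fin n) (f : (Fin n → Bool) → ℝ) (x : Fin n → Bool) : ℝ :=
  (f (Function.update x j false) - f (Function.update x j true)) / 2

/-- The influence `Inf_j f = E[(D_j f)^2]`. -/
noncomputable def influence {n : ℕ} (f : (Fin n → Bool) → ℝ) (j : Fin n) : ℝ :=
  avg fun x => discDeriv j f x ^ 2

lemma avg_eq {n : ℕ} (g : (Fin n → Bool) → ℝ) : avg g = Finset.expect univ g := by
  rw [Fintype.expect_eq_sum_div_card]
  simp [avg]

theorem result (n d m : ℕ) (hn : 1 ≤ n) (hd : 1 ≤ d) (f : (Fin n → Bool) → ℝ)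
    (hf : ∀ S : Finset (Fin n), S.card ≠ d → coeff f S = 0)
    (h : Fin m → (Fin n → Bool) → ℝ) (e : Fin m → ℕ)
    (hh : ∀ k, ∀ S : Finset (Fin n), S.card ≠ e k → coeff (h k) S = 0)
    (K : ℝ) (hK : ∀ x, f x ^ 2 + ∑ k, h k x ^ 2 ≤ K) :
    ∃ j : Fin n, 2 * variance f ^ 2 / (d + 1) ≤
      variance f * (K - avg fun x => f x ^ 2 + ∑ k, h k x ^ 2) +
        influence f j * (d * variance f + ∑ k, e k * avg fun x => h k x ^ 2) := by
  have : Nonempty (Fin n) := ⟨⟨0, hn⟩⟩
  have hc : ∀ g : (Fin n → Bool) → ℝ, coeff g = MP_9e8696_an.H67.fc g := by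
    intro g
    funext S
    rw [coeff, avg_eq]
    rfl
  have hev : ∀ (g : (Fin n → Bool) → ℝ) x,
      MP_9e8696_an.H7.ev (MP_9e8696_an.H67.fc g) x = g x := MP_9e8696_an.H67.fourier_inv
  have hnrm : ∀ g : (Fin n → Bool) → ℝ,
      avg (fun x => g x ^ 2) = MP_9e8696_an.H67.nrm (MP_9e8696_an.H67.fc g) := by
    intro g
    rw [avg_eq, ← MP_9e8696_an.H67.parseval]
    simp only [MP_9e8696_an.H67.fourier_inv]
  have ha : MP_9e8696_an.H7.Hom (MP_9e8696_an.H67.fc f) d := fun S hS => hc f ▸ hf S hS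
  have hb : ∀ k, MP_9e8696_an.H7.Hom (MP_9e8696_an.H67.fc (h k)) (e k) :=
    fun k S hS => hc (h k) ▸ hh k S hS
  have hmean : avg f = 0 := by
    have h0 := hf ∅ (by simp; omega)
    simpa [coeff] using h0
  have hvar : variance f = MP_9e8696_an.H67.nrm (MP_9e8696_an.H67.fc f) := by
    rw [variance, hmean, hnrm]
    ring
  have hsum : (avg fun x => f x ^ 2 + ∑ k, h k x ^ 2) =
      MP_9e8696_an.H67.nrm (MP_9e8696_an.H67.fc f) +
        ∑ k, MP_9e8696_an.H67.nrm (MP_9e8696_an.H67.fc (h k)) := by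
    simp only [← hnrm, avg_eq]
    rw [expect_add_distrib, expect_sum_comm]
  have key := MP_9e8696_an.H7.completion hd ha (fun k => MP_9e8696_an.H67.fc (h k)) e hb K
    (fun x => by simp only [hev]; exact hK x)
  obtain ⟨j, -, hj⟩ := exists_max_image univ
    (fun j => MP_9e8696_an.H67.inf (MP_9e8696_an.H67.fc f) j) univ_nonempty
  refine ⟨j, ?_⟩
  have hinf : influence f j = MP_9e8696_an.H67.inf (MP_9e8696_an.H67.fc f) j := by
    rw [influence, avg_eq, MP_9e8696_an.H67.inf_fc]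
    rfl
  have htot : ∀ {a : Finset (Fin n) → ℝ} {r : ℕ}, MP_9e8696_an.H7.Hom a r →
      ∑ i, MP_9e8696_an.H67.inf a i ≤ r * MP_9e8696_an.H67.nrm a :=
    fun {a r} hr => MP_9e8696_an.H67.sum_inf_le a r fun S hS => hr S hS.ne'
  have hτ : 0 ≤ MP_9e8696_an.H67.inf (MP_9e8696_an.H67.fc f) j := MP_9e8696_an.H67.inf_nonneg _ _
  have hup : ∑ i, MP_9e8696_an.H67.inf (MP_9e8696_an.H67.fc f) i *
      (MP_9e8696_an.H67.inf (MP_9e8696_an.H67.fc f) i +
        ∑ k, MP_9e8696_an.H67.inf (MP_9e8696_an.H67.fc (h k)) i) ≤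
      MP_9e8696_an.H67.inf (MP_9e8696_an.H67.fc f) j *
        (d * MP_9e8696_an.H67.nrm (MP_9e8696_an.H67.fc f) +
          ∑ k, e k * MP_9e8696_an.H67.nrm (MP_9e8696_an.H67.fc (h k))) := by
    refine (sum_le_sum fun i _ => mul_le_mul_of_nonneg_right (hj i (mem_univ i))
      (add_nonneg (MP_9e8696_an.H67.inf_nonneg _ _)
        (sum_nonneg fun k _ => MP_9e8696_an.H67.inf_nonneg _ _))).trans ?_
    rw [← mul_sum, sum_add_distrib, sum_comm]
    exact mul_le_mul_of_nonneg_left (add_le_add (htot ha) (sum_le_sum fun k _ => htot (hb k))) hτ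
  rw [hsum, hvar, hinf]
  simp only [hnrm]
  linarith

end Pool.Agent.Results.MP_9e8696_an.Completion
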