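import Mathlib
import Pool.Agent.MP_9e8696_an.H67.Final
import Pool.Agent.MP_9e8696_an.H39.Bridge

/-!
The strong Aaronson-Ambainis inequality for homogeneous functions, with the sup norm on the cube
replaced by a sup norm on the polytorus.

The cube `{-1,1}^n` is modelled by `Fin n → Bool`, a bit `b` standing for the sign `sgn b`.
-/

namespace Pool.Agent.Results.MP_9e8696_an.Polytorus

open Finset

/-- The sign of a bit: `false` stands for `1` and `true` for `-1`. -/
def sgn (b : Bool) : ℝ := if b then -1 else 1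

/-- Expectation under the uniform measure on the cube. -/
noncomputable def avg {n : ℕ} (g : (Fin n → Bool) → ℝ) : ℝ := (∑ x, g x) / 2 ^ n

/-- The Fourier coefficient `E[f(x) x^S]`. -/
noncomputable def coeff {n : ℕ} (f : (Fin n → Bool) → ℝ) (S : Finset (Fin n)) : ℝ :=
  avg fun x => f x * ∏ i ∈ S, sgn (x i)

/-- The variance `E[f^2] - (E f)^2`. -/
noncomputable def variance {n : ℕ} (f : (Fin n → Bool) → ℝ) : ℝ :=
  avg (fun x => f x ^ 2) - avg f ^ 2

/-- The discrete derivative `D_j f(x) = (f(x^(j→1)) - f(x^(j→-1))) / 2`. -/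
noncomputable def discDeriv {n : ℕ} (j : Fin n) (f : (Fin n → Bool) → ℝ) (x : Fin n → Bool) : ℝ :=
  (f (Function.update x j false) - f (Function.update x j true)) / 2

/-- The norm `(E[g^2])^(1/2)`. -/
noncomputable def normTwo {n : ℕ} (g : (Fin n → Bool) → ℝ) : ℝ :=
  Real.sqrt (avg fun x => g x ^ 2)

lemma avg_eq {n : ℕ} (g : (Fin n → Bool) → ℝ) : avg g = Finset.expect univ g := by
  rw [Fintype.expect_eq_sum_div_card]
  simp [avg]

theorem result (n d : ℕ) (hn : 1 ≤ n) (hd : 1 ≤ d) (f : (Fin n → Bool) → ℝ)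
    (hf : ∀ S : Finset (Fin n), S.card ≠ d → coeff f S = 0)
    (q : MvPolynomial (Fin n) ℂ)
    (hq : ∀ S : Finset (Fin n), S.card = d →
      |coeff f S| ≤ ‖MvPolynomial.coeff (∑ i ∈ S, Finsupp.single i 1) q‖)
    (M : ℝ) (hM : ∀ z : Fin n → ℂ, (∀ i, ‖z i‖ = 1) → ‖MvPolynomial.eval z q‖ ≤ M) :
    ∃ j : Fin n, variance f ≤ M * Real.sqrt (2 * d) * normTwo (discDeriv j f) := by
  have : Nonempty (Fin n) := ⟨⟨0, hn⟩⟩
  have hc : coeff f = MP_9e8696_an.H67.fc f := by
    funext S
    rw [coeff, avg_eq]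
    rfl
  have hM0 : 0 ≤ M := (norm_nonneg _).trans (hM (fun _ => 1) fun _ => norm_one)
  obtain ⟨j, -, hj⟩ := exists_max_image univ
    (fun j => MP_9e8696_an.H67.inf (coeff f) j) univ_nonempty
  refine ⟨j, ?_⟩
  have hinf : ∀ k, MP_9e8696_an.H67.inf (coeff f) k =
      ∑ S with S.card = d ∧ k ∈ S, coeff f S ^ 2 := by
    intro k
    unfold MP_9e8696_an.H67.inf MP_9e8696_an.H67.nrm MP_9e8696_an.H67.sh
    have := MP_9e8696_an.H67.sum_sh {k} fun S _ => coeff f S ^ 2
    simp only [ite_pow, zero_pow two_ne_zero]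
    rw [this, sum_filter]
    refine sum_congr rfl fun S _ => ?_
    by_cases h1 : S.card = d <;> by_cases h2 : k ∈ S <;> simp [h1, h2, hf]
  have hvar : variance f = ∑ S with S.card = d, coeff f S ^ 2 := by
    rw [variance, avg_eq, avg_eq, ← MP_9e8696_an.H67.var_fc, ← hc, MP_9e8696_an.H67.var,
      sum_filter]
    refine sum_congr rfl fun S _ => ?_
    by_cases h1 : S.card = d
    · have : S ≠ ∅ := by
        rintro rfl
        simp at h1
        omega
      simp [h1, this]
    · simp [h1, hf]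
  have hnorm : normTwo (discDeriv j f) = Real.sqrt (MP_9e8696_an.H67.inf (coeff f) j) := by
    rw [normTwo, avg_eq, hc, MP_9e8696_an.H67.inf_fc]
    rfl
  have hτ0 : 0 ≤ MP_9e8696_an.H67.inf (coeff f) j := MP_9e8696_an.H67.nrm_nonneg _
  have h := MP_9e8696_an.H39.coeff_bound hd (coeff f) q hq hM hτ0 fun k => by
    rw [← hinf]
    exact hj k (mem_univ k)
  rw [hvar, hnorm]
  refine le_of_sq_le_sq ?_ (by positivity)
  rw [mul_pow, mul_pow, Real.sq_sqrt (by positivity), Real.sq_sqrt hτ0]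
  linarith

end Pool.Agent.Results.MP_9e8696_an.Polytorus
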