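import Mathlib
import Pool.Agent.MP_9e8696_an.H30.Main

/-!
The strong Aaronson-Ambainis inequality with a quasi-polynomial loss, for all functions.

The cube `{-1,1}^n` is modelled by `Fin n → Bool`, a bit `b` standing for the sign `sgn b`.
-/

namespace Pool.Agent.Results.MP_9e8696_an.StrongQuasi

open Finset

/-- The sign of a bit: `false` stands for `1` and `true` for `-1`. -/
def sgn (b : Bool) : ℝ := if b then -1 else 1

/-- Expectation under the uniform measure on the cube. -/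
noncomputable def avg {n : ℕ} (g : (Fin n → Bool) → ℝ) : ℝ := (∑ x, g x) / 2 ^ n

/-- The Fourier coefficient `E[f(x) x^S]`. -/
noncomputable def coeff {n : ℕ} (f : (Fin n → Bool) → ℝ) (S : Finset (Fin n)) : ℝ :=
  avg fun x => f x * ∏ i ∈ S, sgn (x i)

/-- The variance `E[f^2] - (E f)^2`. -/
noncomputable def variance {n : ℕ} (f : (Fin n → Bool) → ℝ) : ℝ :=
  avg (fun x => f x ^ 2) - avg f ^ 2

/-- The discrete derivative `D_j f(x) = (f(x^(j→1)) - f(x^(j→-1))) / 2`. -/
noncomputable def discDeriv {n : ℕ} (j : Fin n) (f : (Fin n → Bool) → ℝ) (x : Fin n → Bool) : ℝ :=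
  (f (Function.update x j false) - f (Function.update x j true)) / 2

/-- The norm `(E[g^2])^(1/2)`. -/
noncomputable def normTwo {n : ℕ} (g : (Fin n → Bool) → ℝ) : ℝ :=
  Real.sqrt (avg fun x => g x ^ 2)

lemma avg_eq {n : ℕ} (g : (Fin n → Bool) → ℝ) : avg g = Finset.expect univ g := by
  rw [Fintype.expect_eq_sum_div_card]
  simp [avg]

theorem result : ∃ C : ℝ, 0 < C ∧ ∀ n d : ℕ, 1 ≤ n → 1 ≤ d →
    ∀ (f : (Fin n → Bool) → ℝ) (M : ℝ), (∀ x, |f x| ≤ M) →
      (∀ S : Finset (Fin n), d < S.card → coeff f S = 0) →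
      ∃ j : Fin n,
        variance f ≤ M * (2 * (d : ℝ)) ^ (C * Real.log (2 * d)) * normTwo (discDeriv j f) := by
  obtain ⟨C, hC, h⟩ := MP_9e8696_an.H30.final_all
  refine ⟨C, hC, fun n d hn hd f M hf hdeg => ?_⟩
  have : Nonempty (Fin n) := ⟨⟨0, hn⟩⟩
  have hc : coeff f = MP_9e8696_an.H67.fc f := by
    funext S
    rw [coeff, avg_eq]
    rfl
  obtain ⟨j, hj⟩ := MP_9e8696_an.H30.cube_of_bound (by positivity) (h d hd) f M hf
    (fun S hS => by rw [← hc]; exact hdeg S hS)
  refine ⟨j, ?_⟩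
  rw [MP_9e8696_an.H67.var_fc, MP_9e8696_an.H67.inf_fc] at hj
  rw [variance, normTwo, avg_eq, avg_eq, avg_eq]
  exact hj

end Pool.Agent.Results.MP_9e8696_an.StrongQuasi
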